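import Pool.Agent.N162.HN.Stm

/-!
HN/FUND (project HN of helper162): an extension with a valuation which is totally inert and
unramified is trivial. By helper56.
-/

set_option autoImplicit false

namespace Pool.Agent.N56.HN

open Pool.Agent.N162.HN

theorem fund_ : StFUND := by
  intro A R E _ _ _ _ _ _ _ _ _ _ t ht h1 h2 e
  letI : Algebra A E := ((algebraMap R E).comp (algebraMap A R)).toAlgebra
  haveI : IsScalarTower A R E := IsScalarTower.of_algebraMap_eq (fun _ => rfl)
  have hmap : ∀ a : A, algebraMap A E a = algebraMap R E (algebraMap A R a) := fun _ => rfl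
  haveI : Module.Finite A (integralClosure A E) :=
    IsIntegralClosure.finite A R E (integralClosure A E)
  haveI : IsIntegrallyClosedIn (integralClosure A E).toSubring E :=
    inferInstanceAs (IsIntegrallyClosedIn (integralClosure A E) E)
  have hRE : Function.Injective (algebraMap R E) := (algebraMap R E).injective
  have hAR : Function.Injective (algebraMap A R) := IsFractionRing.injective A R
  have ht0 : algebraMap A R t ≠ 0 := by
    rw [Ne, map_eq_zero_iff _ hAR]
    exact ht.ne_zero
  have htE : algebraMap R E (algebraMap A R t) ≠ 0 := by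
    rw [Ne, map_eq_zero_iff _ hRE]
    exact ht0
  -- the inverse of `t` is not integral
  have hx : (algebraMap R E (algebraMap A R t))⁻¹ ∉ (integralClosure A E).toSubring := by
    intro hmem
    have hint : IsIntegral A ((algebraMap R E (algebraMap A R t))⁻¹) := hmem
    rw [← map_inv₀, isIntegral_algebraMap_iff hRE, IsIntegrallyClosed.isIntegral_iff] at hint
    obtain ⟨y, hy⟩ := hint
    apply ht.not_isUnit
    refine IsUnit.of_mul_eq_one y (hAR ?_)
    rw [map_mul, hy, map_one, mul_inv_cancel₀ ht0]
  obtain ⟨V₀, hV₀, hxV₀⟩ := Subring.exists_le_valuationSubring_of_isIntegrallyClosedIn hx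
  have hne : ∀ (V : ValuationSubring E) (x : E), x ∉ V → V ≠ ⊤ := by
    rintro V x hxV rfl
    exact hxV trivial
  have hA : ∀ V : ValuationSubring E, (integralClosure A E).toSubring ≤ V.toSubring →
      ∀ a : A, algebraMap R E (algebraMap A R a) ∈ V := by
    intro V hV a
    exact hV (show algebraMap A E a ∈ integralClosure A E from Subalgebra.algebraMap_mem _ a)
  have hV₀B : ∀ x ∈ V₀, x ∈ integralClosure A E := by
    intro x hxV
    by_contra hxB
    have hxB' : x ∉ (integralClosure A E).toSubring := hxB
    obtain ⟨V, hV, hxV'⟩ := Subring.exists_le_valuationSubring_of_isIntegrallyClosedIn hxB'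
    have := h1 V V₀ (hA V hV) (hA V₀ hV₀) (hne V x hxV') (hne V₀ _ hxV₀)
    exact hxV' (this ▸ hxV)
  -- the integral closure is `A + t B`
  have hdec : ∀ b : integralClosure A E, ∃ (a : A) (b' : integralClosure A E),
      b = algebraMap A _ a + t • b' := by
    intro b
    obtain ⟨a, ha⟩ := h2 V₀ (hA V₀ hV₀) (hne V₀ _ hxV₀) b (hV₀ b.2)
    refine ⟨a, ⟨_, hV₀B _ ha⟩, Subtype.ext ?_⟩
    have e1 : ((algebraMap A (integralClosure A E) a : integralClosure A E) : E)
        = algebraMap R E (algebraMap A R a) := rfl
    rw [Subalgebra.coe_add, Subalgebra.coe_smul, e1, Algebra.smul_def, hmap]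
    field_simp
    ring
  have htop : (⊤ : Submodule A (integralClosure A E)) ≤
      LinearMap.range (Algebra.linearMap A (integralClosure A E)) := by
    apply Submodule.le_of_le_smul_of_le_jacobson_bot (I := Ideal.span {t}) Module.Finite.fg_top
    · rw [IsLocalRing.jacobson_eq_maximalIdeal ⊥ bot_ne_top, Ideal.span_le,
        Set.singleton_subset_iff]
      exact (IsLocalRing.mem_maximalIdeal t).mpr ht.not_isUnit
    · intro b _
      obtain ⟨a, b', hb⟩ := hdec b
      rw [hb]
      refine Submodule.add_mem_sup ⟨a, rfl⟩ ?_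
      exact Submodule.smul_mem_smul (Ideal.mem_span_singleton_self t) trivial
  have hfin : ∀ x ∈ V₀, ∃ a : A, algebraMap R E (algebraMap A R a) = x := by
    intro x hx
    obtain ⟨a, ha⟩ := htop (show (⟨x, hV₀B x hx⟩ : integralClosure A E) ∈ ⊤ from trivial)
    exact ⟨a, congrArg (fun z : integralClosure A E => (z : E)) ha⟩
  rcases V₀.mem_or_inv_mem e with he | he
  · obtain ⟨a, ha⟩ := hfin e he
    exact ⟨_, ha⟩
  · obtain ⟨a, ha⟩ := hfin _ he
    refine ⟨(algebraMap A R a)⁻¹, ?_⟩
    rw [map_inv₀, ha, inv_inv]

end Pool.Agent.N56.HN
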