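import Pool.Agent.N162.HN.Stm
import Pool.Agent.Y184.NT.Prep

/-!
HN/NN (project HN of helper162): no moving curves, linear algebra. By helper56.
-/

set_option autoImplicit false

open FF Pool.Agent.W603.LV Pool.Agent.Y184.NT Pool.Agent.N162.BC IntermediateField
open Pool.Agent.Y988.NT

namespace Pool.Agent.N56.HN

section mat

variable {K : Type} [Field K] {n : ℕ}

/-- the matrix with the rows `c`, `x`, `r i` -/
def mat (c x : Fin (n + 2) → K) (r : Fin n → Fin (n + 2) → K) :
    Matrix (Fin (n + 2)) (Fin (n + 2)) K :=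
  Matrix.of (Fin.cons c (Fin.cons x r : Fin (n + 1) → Fin (n + 2) → K))

theorem mat_update (c x : Fin (n + 2) → K) (r : Fin n → Fin (n + 2) → K) (i : Fin n)
    (w : Fin (n + 2) → K) :
    mat c x (Function.update r i w) = (mat c x r).updateRow i.succ.succ w := by
  unfold mat
  rw [Fin.cons_update, Fin.cons_update]
  rfl

theorem mat_add (c x : Fin (n + 2) → K) (r : Fin n → Fin (n + 2) → K) (i : Fin n)
    (u w : Fin (n + 2) → K) (s : K) :
    (mat c x (Function.update r i (u + s • w))).det =
      (mat c x (Function.update r i u)).det + s * (mat c x (Function.update r i w)).det := by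
  rw [mat_update, mat_update, mat_update, Matrix.det_updateRow_add, Matrix.det_updateRow_smul]

theorem mat_eq (c x : Fin (n + 2) → K) (r : Fin n → Fin (n + 2) → K) {i j : Fin n} (hij : i ≠ j)
    (h : r i = r j) : (mat c x r).det = 0 := by
  refine Matrix.det_zero_of_row_eq (i := i.succ.succ) (j := j.succ.succ) ?_ ?_
  · intro h1
    exact hij (Fin.succ_injective _ (Fin.succ_injective _ h1))
  · funext k
    simp [mat, Matrix.row, h]

/-- adding multiples of `w` to the rows -/
theorem shift_all (c x : Fin (n + 2) → K) (r : Fin n → Fin (n + 2) → K) (w : Fin (n + 2) → K)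
    (a : Fin n → K) (h0 : (mat c x r).det = 0)
    (h1 : ∀ i, (mat c x (Function.update r i w)).det = 0) :
    (mat c x (fun i => r i + a i • w)).det = 0 := by
  classical
  have key : ∀ S : Finset (Fin n),
      (mat c x (fun i => if i ∈ S then r i + a i • w else r i)).det = 0 ∧
      ∀ i₀, (mat c x (Function.update (fun i => if i ∈ S then r i + a i • w else r i) i₀ w)).det
        = 0 := by
    intro S
    induction S using Finset.induction_on with
    | empty => simpa using ⟨h0, h1⟩
    | insert j S hj ih =>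
      set R : Fin n → Fin (n + 2) → K := fun i => if i ∈ S then r i + a i • w else r i with hR
      have hRj : R j = r j := by simp [hR, hj]
      have e : (fun i => if i ∈ insert j S then r i + a i • w else r i) =
          Function.update R j (R j + a j • w) := by
        funext i
        by_cases hi : i = j
        · subst hi
          rw [Function.update_self, hRj, if_pos (Finset.mem_insert_self _ _)]
        · rw [Function.update_of_ne hi, hR]
          simp [hi]
      rw [e]
      refine ⟨?_, fun i₀ => ?_⟩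
      · rw [mat_add, Function.update_eq_self, ih.1, ih.2, mul_zero, add_zero]
      · by_cases hi : i₀ = j
        · subst hi
          rw [Function.update_idem]
          exact ih.2 _
        · rw [Function.update_comm (Ne.symm hi), mat_add]
          have e1 : Function.update (Function.update R i₀ w) j (R j) =
              Function.update R i₀ w := by
            conv_rhs => rw [← Function.update_eq_self j (Function.update R i₀ w)]
            rw [Function.update_of_ne (Ne.symm hi)]
          rw [e1, ih.2, mat_eq c x (Function.update (Function.update R i₀ w) j w) hi (by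
            rw [Function.update_self, Function.update_of_ne hi, Function.update_self])]
          ring
  have h2 := (key Finset.univ).1
  simpa using h2

theorem vecMul_mat (γ c x : Fin (n + 2) → K) (r : Fin n → Fin (n + 2) → K) (j : Fin (n + 2)) :
    Matrix.vecMul γ (mat c x r) j = γ 0 * c j + (γ 1 * x j + ∑ i : Fin n, γ i.succ.succ * r i j) := by
  simp only [Matrix.vecMul, dotProduct, mat, Matrix.of_apply]
  rw [Fin.sum_univ_succ, Fin.sum_univ_succ]
  rfl

theorem det_zero (φ x w : Fin (n + 2) → K) (r : Fin n → Fin (n + 2) → K) (hφ : φ ≠ 0)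
    (hx : ∑ l, φ l * x l = 0) (hr : ∀ i, ∑ l, φ l * r i l = 0) (hw : ∑ l, φ l * w l = 0)
    (x0 : x 0 = 1) (r0 : ∀ i, r i 0 = 0) (r1 : ∀ i, r i 1 = 0) (w0 : w 0 = 0) (w1 : w 1 = 1)
    (c : Fin (n + 2) → K) : (mat c x r).det = 0 := by
  have h1 : (mat w x r).det = 0 := by
    rw [← Matrix.exists_mulVec_eq_zero_iff]
    refine ⟨φ, hφ, ?_⟩
    funext i
    refine Fin.cases ?_ (fun i => Fin.cases ?_ (fun i => ?_) i) i
    · change ∑ l, w l * φ l = 0
      rw [← hw]
      exact Finset.sum_congr rfl fun l _ => mul_comm _ _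
    · change ∑ l, x l * φ l = 0
      rw [← hx]
      exact Finset.sum_congr rfl fun l _ => mul_comm _ _
    · change ∑ l, r i l * φ l = 0
      rw [← hr i]
      exact Finset.sum_congr rfl fun l _ => mul_comm _ _
  obtain ⟨γ, hγ, hγM⟩ := Matrix.exists_vecMul_eq_zero_iff.mpr h1
  have e0 := congrFun hγM 0
  have e1 := congrFun hγM 1
  rw [vecMul_mat, Pi.zero_apply] at e0 e1
  simp only [w0, w1, x0, r0, r1, mul_zero, Finset.sum_const_zero, mul_one, zero_add, add_zero]
    at e0 e1
  rw [e0, zero_mul, add_zero] at e1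
  rw [← Matrix.exists_vecMul_eq_zero_iff]
  refine ⟨γ, hγ, ?_⟩
  funext j
  have := congrFun hγM j
  rw [vecMul_mat, e1, zero_mul] at this
  rw [vecMul_mat, e1, zero_mul]
  exact this

end mat

section red

variable {Ω E : Type} [Field Ω] [Field E] [Algebra Ω E] {v : Place Ω E}

theorem const_zero {a : Ω} (h : Ge v 1 (algebraMap Ω E a)) : a = 0 := by
  by_contra ha
  rcases h with h | h
  · exact ha ((map_eq_zero _).1 h)
  · rw [v.ord_const ha] at h
    omega

theorem Ge_mul0 {n : ℤ} {f g : E} (hf : Ge v 0 f) (hg : Ge v n g) : Ge v n (f * g) := by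
  have := hf.mul hg
  rwa [zero_add] at this

theorem Ge_mul1 {n : ℤ} {f g : E} (hf : Ge v n f) (hg : Ge v 0 g) : Ge v n (f * g) := by
  have := hf.mul hg
  rwa [add_zero] at this

theorem ge_prod {ι : Type} (s : Finset ι) (a b : ι → E) (hb : ∀ i, Ge v 0 (b i))
    (hab : ∀ i, Ge v 1 (a i - b i)) :
    Ge v 0 (∏ i ∈ s, a i) ∧ Ge v 1 (∏ i ∈ s, a i - ∏ i ∈ s, b i) := by
  classical
  have ha : ∀ i, Ge v 0 (a i) := by
    intro i
    have := (hb i).add ((hab i).mono (by norm_num : (0 : ℤ) ≤ 1))
    rwa [add_sub_cancel] at this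
  induction s using Finset.induction_on with
  | empty =>
    refine ⟨by simpa using Ge.one, ?_⟩
    simpa using Ge.zero
  | insert i s hi ih =>
    rw [Finset.prod_insert hi, Finset.prod_insert hi]
    refine ⟨Ge_mul0 (ha i) ih.1, ?_⟩
    have e : a i * ∏ x ∈ s, a x - b i * ∏ x ∈ s, b x =
        (a i - b i) * ∏ x ∈ s, a x + b i * (∏ x ∈ s, a x - ∏ x ∈ s, b x) := by ring
    rw [e]
    exact (Ge_mul1 (hab i) ih.1).add (Ge_mul0 (hb i) ih.2)

theorem ge_det {N : ℕ} (A B : Matrix (Fin N) (Fin N) E) (hB : ∀ i j, Ge v 0 (B i j))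
    (hAB : ∀ i j, Ge v 1 (A i j - B i j)) : Ge v 1 (A.det - B.det) := by
  rw [Matrix.det_apply, Matrix.det_apply, ← Finset.sum_sub_distrib]
  refine Ge.sum _ _ fun σ _ => ?_
  have h1 := (ge_prod (v := v) Finset.univ (fun i => A (σ i) i) (fun i => B (σ i) i)
    (fun i => hB _ _) (fun i => hAB _ _)).2
  rcases Int.units_eq_one_or (Equiv.Perm.sign σ) with h | h
  · rw [h, one_smul, one_smul]
    exact h1
  · rw [h, Units.neg_smul, Units.neg_smul, one_smul, one_smul]
    have := h1.neg
    rwa [neg_sub, ← neg_sub_neg] at this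

end red

theorem nn_ (h : Pool.Agent.N162.HN.StNM) (ha : Pool.Agent.N162.CV.StDERa)
    (hc : Pool.Agent.N162.CV.StDERc) : Pool.Agent.N162.HN.StN := by
  intro n Ω E _ _ _ _ _ _ F d _ hs hFd X hX hF0 hd D v p c hv
  letI : Algebra ℂ E := ((algebraMap Ω E).comp (algebraMap ℂ Ω)).toAlgebra
  haveI : IsScalarTower ℂ Ω E := IsScalarTower.of_algebraMap_eq fun _ => rfl
  have hF0' : MvPolynomial.aeval X F = 0 := by
    rw [← hF0]
    unfold Pool.Agent.N162.HN.cmp
    rw [MvPolynomial.aeval_map_algebraMap]
  obtain ⟨⟨dx, hdx⟩, hex⟩ := hc Ω E (X 1) hX.tr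
  choose δ hδ hδx using fun i => hex (D i)
  have hX0 : X 0 ≠ 0 := by rw [hX.one]; exact one_ne_zero
  obtain ⟨c0, hc0⟩ := exists_c (n := n) hs (x := X) (j0 := 0) hX0
  have hφ : (fun l => MvPolynomial.aeval X (MvPolynomial.pderiv l F)) ≠ 0 := by
    intro h0
    have h1 : ∀ l, MvPolynomial.aeval X (MvPolynomial.pderiv l F) = 0 := fun l => congrFun h0 l
    simp [h1] at hc0
  have hA := euler_aeval hFd hF0'
  have hB : ∀ i, ∑ l, MvPolynomial.aeval X (MvPolynomial.pderiv l F) * δ i (X l) = 0 := by
    intro i
    rw [← der_aeval, hF0', map_zero]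
  have hC : ∑ l, MvPolynomial.aeval X (MvPolynomial.pderiv l F) * dx (X l) = 0 := by
    have := der_aeval (dx.restrictScalars ℂ) X F
    rw [hF0', map_zero] at this
    exact this.symm
  have z1 : ∀ c : Fin (n + 2) → E, (mat c X (fun i j => δ i (X j))).det = 0 :=
    det_zero _ X (fun j => dx (X j)) (fun i j => δ i (X j)) hφ hA hB hC hX.one
      (fun i => by rw [hX.one]; exact Derivation.map_one_eq_zero _) hδx
      (by rw [hX.one]; exact Derivation.map_one_eq_zero _) hdx
  have z2 : ∀ (c : Fin (n + 2) → E) (i₀ : Fin n),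
      (mat c X (Function.update (fun i j => δ i (X j)) i₀ (fun j => dx (X j)))).det = 0 := by
    intro c i₀
    have h1 := h n Ω E F d hs hFd X hX hF0' hd i₀
      (Function.update δ i₀ (dx.restrictScalars ℂ))
      (by intro a; rw [Function.update_self]; exact Derivation.map_algebraMap dx a)
      (by rw [Function.update_self]; exact hdx)
      (by
        intro i hi
        rw [Function.update_of_ne hi]
        exact ⟨hδx i, D i, hδ i⟩) c
    rw [← h1]
    congr 1
    unfold rows mat
    congr 3
    funext i j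
    by_cases hi : i = i₀
    · subst hi
      rw [Function.update_self, Function.update_self]
      rfl
    · rw [Function.update_of_ne hi, Function.update_of_ne hi]
  set t : E := X 1 - algebraMap Ω E (p 1) with ht
  have ht0 : t ≠ 0 := by
    intro h0
    apply hX.tr
    rw [sub_eq_zero.1 h0]
    exact isAlgebraic_algebraMap _
  have hto : 0 < v.ord t := by
    rcases hv 1 with h0 | h0
    · exact absurd h0 ht0
    · exact lt_of_lt_of_le one_pos h0
  set δ' : Fin n → Derivation ℂ E E := fun i =>
    δ i + algebraMap Ω E (D i (p 1)) • (dx.restrictScalars ℂ) with hδ'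
  have hδ'a : ∀ i g, δ' i g = δ i g + algebraMap Ω E (D i (p 1)) * dx g := fun i g => rfl
  have hδ'c : ∀ i b, δ' i (algebraMap Ω E b) = algebraMap Ω E (D i b) := by
    intro i b
    rw [hδ'a, hδ, Derivation.map_algebraMap, mul_zero, add_zero]
  have hδ't : ∀ i, δ' i t = 0 := by
    intro i
    rw [ht, map_sub, hδ'c, hδ'a, hdx, hδx]
    ring
  have key : ∀ i j, Ge v 1 (δ' i (X j) - algebraMap Ω E (D i (p j))) := by
    intro i j
    have h1 := ha Ω E (D i) (δ' i) (hδ'c i) t v hto (hδ't i) 1 _ (hv j)
    rwa [map_sub, hδ'c] at h1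
  have z3 : (mat (fun j => algebraMap Ω E (c j)) X (fun i j => δ' i (X j))).det = 0 := by
    have h1 := shift_all (fun j => algebraMap Ω E (c j)) X (fun i j => δ i (X j))
      (fun j => dx (X j)) (fun i => algebraMap Ω E (D i (p 1))) (z1 _) (fun i => z2 _ i)
    rw [← h1]
    rfl
  have h2 := ge_det (v := v) (mat (fun j => algebraMap Ω E (c j)) X (fun i j => δ' i (X j)))
    ((algebraMap Ω E).mapMatrix (rows c p D)) (fun i j => Ge.const _) (by
      intro i j
      refine Fin.cases ?_ (fun i => Fin.cases ?_ (fun i => ?_) i) i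
      · change Ge v 1 (algebraMap Ω E (c j) - algebraMap Ω E (c j))
        rw [sub_self]
        exact Ge.zero
      · exact hv j
      · exact key i j)
  rw [z3, ← RingHom.map_det, zero_sub] at h2
  have h3 := h2.neg
  rw [neg_neg] at h3
  exact const_zero h3

end Pool.Agent.N56.HN
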