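import Pool.Agent.N162.HN.Stm

/-!
HN/RDI (project HN of helper162): the degree does not increase under specialisation. By helper56.
-/

set_option autoImplicit false

namespace Pool.Agent.N56.HN

open Pool.Agent.N162.HN IntermediateField Polynomial

theorem rdi_ : StRDI := by
  classical
  intro Ω E Λ E' _ _ _ _ _ _ O S φ hsp u hu hfd
  obtain ⟨f, hf⟩ := exists_linearIndependent_of_le_finrank (R := Λ⟮φ u⟯) (M := E') le_rfl
  generalize Module.finrank Λ⟮φ u⟯ E' = n at f hf
  choose z hz using fun i => hsp.surj (f i)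
  suffices hli : LinearIndependent Ω⟮(u : E)⟯ (fun i => ((z i : S) : E)) by
    simpa using hli.fintype_card_le_finrank
  rw [Fintype.linearIndependent_iff]
  intro g hg
  by_contra hcon
  push Not at hcon
  obtain ⟨i₀, hi₀⟩ := hcon
  -- clear the denominators
  have hden : ∀ i, ∃ r s : Polynomial Ω, aeval (u : E) s ≠ 0 ∧ (g i : E) * aeval (u : E) s =
      aeval (u : E) r := by
    intro i
    obtain ⟨r, s, hrs⟩ := (IntermediateField.mem_adjoin_simple_iff Ω (g i : E)).mp (g i).2
    by_cases hs : aeval (u : E) s = 0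
    · refine ⟨0, 1, by simp, ?_⟩
      rw [hrs, hs]
      simp
    · refine ⟨r, s, hs, ?_⟩
      rw [hrs]
      field_simp
  choose r s hs0 hrs using hden
  set P : Fin n → Polynomial Ω := fun i => r i * ∏ j ∈ Finset.univ.erase i, s j with hP
  set D : E := ∏ j, aeval (u : E) (s j) with hD
  have hD0 : D ≠ 0 := Finset.prod_ne_zero_iff.mpr fun j _ => hs0 j
  have hPD : ∀ i, aeval (u : E) (P i) = (g i : E) * D := by
    intro i
    rw [hP, hD, map_mul, ← hrs i, map_prod, ← Finset.mul_prod_erase Finset.univ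
      (fun j => aeval (u : E) (s j)) (Finset.mem_univ i), mul_assoc]
  have hsum : ∑ i, aeval (u : E) (P i) * ((z i : S) : E) = 0 := by
    have h1 : ∑ i, (g i : E) * ((z i : S) : E) = 0 := by
      simpa [Algebra.smul_def] using hg
    have h2 : ∑ i, aeval (u : E) (P i) * ((z i : S) : E) =
        D * ∑ i, (g i : E) * ((z i : S) : E) := by
      rw [Finset.mul_sum]
      exact Finset.sum_congr rfl fun i _ => by rw [hPD i]; ring
    rw [h2, h1, mul_zero]
  have hP0 : P i₀ ≠ 0 := by
    intro h0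
    have h1 := hPD i₀
    rw [h0, map_zero] at h1
    rcases mul_eq_zero.mp h1.symm with h2 | h2
    · exact hi₀ (Subtype.ext h2)
    · exact hD0 h2
  -- the largest coefficient
  obtain ⟨⟨i₁, k₁⟩, hmem, hmax⟩ := Finset.exists_max_image
    ((Finset.univ : Finset (Fin n)).sigma fun i => (P i).support)
    (fun q => O.valuation (algebraMap Ω E ((P q.1).coeff q.2))) (by
      obtain ⟨k, hk⟩ := Polynomial.nonempty_support_iff.mpr hP0
      exact ⟨⟨i₀, k⟩, by simp only [Finset.mem_sigma, Finset.mem_univ, true_and]; exact hk⟩)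
  simp only [Finset.mem_sigma, Finset.mem_univ, true_and] at hmem
  set ω : Ω := (P i₁).coeff k₁ with hω
  have hω0 : ω ≠ 0 := Polynomial.mem_support_iff.mp hmem
  have hωE : algebraMap Ω E ω ≠ 0 := by
    rwa [Ne, map_eq_zero_iff _ (algebraMap Ω E).injective]
  have hcO : ∀ i k, algebraMap Ω E ((P i).coeff k / ω) ∈ O := by
    intro i k
    by_cases hk : (P i).coeff k = 0
    · rw [hk, zero_div, map_zero]
      exact O.zero_mem
    · have h1 := hmax ⟨i, k⟩ (by
        simp only [Finset.mem_sigma, Finset.mem_univ, true_and]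
        exact Polynomial.mem_support_iff.mpr hk)
      rw [← O.valuation_le_one_iff, map_div₀, map_div₀]
      exact div_le_one_of_le₀ h1 zero_le'
  choose hcS b hb using fun i k => hsp.one _ (hcO i k)
  obtain ⟨N, hN⟩ : ∃ N : ℕ, ∀ i, (P i).natDegree < N := by
    refine ⟨(Finset.univ.sup fun i => (P i).natDegree) + 1, fun i => ?_⟩
    exact Nat.lt_succ_of_le (Finset.le_sup (f := fun i => (P i).natDegree) (Finset.mem_univ i))
  -- the relation in `S`
  have hrel : ∑ i, (∑ k ∈ Finset.range N, (⟨_, hcS i k⟩ : S) * u ^ k) * z i = 0 := by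
    apply Subtype.ext
    have h1 : ((∑ i, (∑ k ∈ Finset.range N, (⟨_, hcS i k⟩ : S) * u ^ k) * z i : S) : E) =
        ∑ i, (∑ k ∈ Finset.range N, algebraMap Ω E ((P i).coeff k / ω) * (u : E) ^ k) *
          ((z i : S) : E) := by
      push_cast
      rfl
    rw [h1]
    have h2 : ∀ i, ∑ k ∈ Finset.range N, algebraMap Ω E ((P i).coeff k / ω) * (u : E) ^ k =
        (algebraMap Ω E ω)⁻¹ * aeval (u : E) (P i) := by
      intro i
      rw [Polynomial.aeval_eq_sum_range' (hN i), Finset.mul_sum]
      refine Finset.sum_congr rfl fun k _ => ?_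
      rw [map_div₀, Algebra.smul_def]
      field_simp
    simp only [h2, mul_assoc]
    rw [← Finset.mul_sum, hsum, mul_zero]
    rfl
  have hrel' : ∑ i, (∑ k ∈ Finset.range N, algebraMap Λ E' (b i k) * (φ u) ^ k) * f i = 0 := by
    have h1 := congrArg φ hrel
    rw [map_zero, map_sum] at h1
    rw [← h1]
    refine Finset.sum_congr rfl fun i _ => ?_
    rw [map_mul, hz, map_sum]
    congr 1
    refine Finset.sum_congr rfl fun k _ => ?_
    rw [map_mul, map_pow, hb]
  set Q : Fin n → Polynomial Λ := fun i => ∑ k ∈ Finset.range N, C (b i k) * X ^ k with hQ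
  have hQe : ∀ i, aeval (φ u) (Q i) =
      ∑ k ∈ Finset.range N, algebraMap Λ E' (b i k) * (φ u) ^ k := by
    intro i
    simp [hQ]
  have hmemQ : ∀ i, aeval (φ u) (Q i) ∈ Λ⟮φ u⟯ := fun i =>
    Polynomial.aeval_mem_adjoin_singleton Λ (φ u) |> fun h =>
      (IntermediateField.algebra_adjoin_le_adjoin Λ {φ u}) h
  have hzero := (Fintype.linearIndependent_iff.mp hf) (fun i => ⟨_, hmemQ i⟩) (by
    rw [← hrel']
    refine Finset.sum_congr rfl fun i _ => ?_
    rw [← hQe, Algebra.smul_def]
    rfl) i₁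
  have hQ0 : Q i₁ = 0 := by
    have h1 : aeval (φ u) (Q i₁) = 0 := congrArg (fun t : Λ⟮φ u⟯ => (t : E')) hzero
    exact (transcendental_iff.mp hu) _ h1
  have hk₁ : k₁ < N := lt_of_le_of_lt (Polynomial.le_natDegree_of_mem_supp _ hmem) (hN i₁)
  have hb0 : b i₁ k₁ = 0 := by
    have h1 : (Q i₁).coeff k₁ = b i₁ k₁ := by
      simp only [hQ, Polynomial.finset_sum_coeff, Polynomial.coeff_C_mul_X_pow]
      rw [Finset.sum_eq_single k₁]
      · simp
      · intro k _ hk
        rw [if_neg (Ne.symm hk)]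
      · intro h
        exact absurd (Finset.mem_range.mpr hk₁) h
    rw [← h1, hQ0, Polynomial.coeff_zero]
  have h1 := hb i₁ k₁
  rw [hb0, map_zero] at h1
  have h2 : (⟨_, hcS i₁ k₁⟩ : S) = 1 := by
    apply Subtype.ext
    change algebraMap Ω E ((P i₁).coeff k₁ / ω) = 1
    rw [show (P i₁).coeff k₁ / ω = 1 from div_self hω0, map_one]
  rw [h2, map_one] at h1
  exact one_ne_zero h1

end Pool.Agent.N56.HN
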